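import Mathlib

/-!
# Windows of length `(log v_n)^θ` and short intervals for sets of density `(log X)^(ε - 1)`
-/

set_option autoImplicit false

namespace Pool.Agent.V11298.WP

section

open Finset Filter Topology MeasureTheory

/-- one finite set, one index -/
theorem vol_le (S : Set ℕ) (hS : S.Finite) {v L : ℝ} (hv : 0 < v) :
    volume {α : ℝ | ∃ N ∈ S, |(N : ℝ) - α * v| ≤ L} ≤ ENNReal.ofReal (2 * ((S.ncard : ℝ) * L / v)) := by
  classical
  have hsub : {α : ℝ | ∃ N ∈ S, |(N : ℝ) - α * v| ≤ L} ⊆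
      ⋃ N ∈ hS.toFinset, Metric.closedBall ((N : ℝ) / v) (L / v) := by
    rintro α ⟨N, hN, hw⟩
    rw [Set.mem_iUnion₂]
    refine ⟨N, by simpa using hN, ?_⟩
    rw [Metric.mem_closedBall, Real.dist_eq]
    have h1 : α - (N : ℝ) / v = -((N : ℝ) - α * v) / v := by
      field_simp
      ring
    rw [h1, abs_div, abs_neg, abs_of_pos hv]
    exact (div_le_div_iff_of_pos_right hv).2 hw
  calc volume {α : ℝ | ∃ N ∈ S, |(N : ℝ) - α * v| ≤ L}
      ≤ volume (⋃ N ∈ hS.toFinset, Metric.closedBall ((N : ℝ) / v) (L / v)) := measure_mono hsub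
    _ ≤ ∑ N ∈ hS.toFinset, volume (Metric.closedBall ((N : ℝ) / v) (L / v)) := measure_biUnion_finset_le _ _
    _ = ∑ N ∈ hS.toFinset, ENNReal.ofReal (2 * (L / v)) := by
        apply Finset.sum_congr rfl
        intro N _
        rw [Real.volume_closedBall]
    _ = ENNReal.ofReal (2 * ((S.ncard : ℝ) * L / v)) := by
        rw [Finset.sum_const, nsmul_eq_mul, ← ENNReal.ofReal_natCast, ← ENNReal.ofReal_mul (Nat.cast_nonneg _),
          Set.ncard_eq_toFinset_card _ hS]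
        congr 1
        ring

/-- **Borel-Cantelli.** Let `S n` be finite sets of integers for which `∑ #(S n) L_n / v_n` converges. For almost all `α`
and all large `n` no `N` in `S n` satisfies `|N - α v_n| ≤ L_n`. -/
theorem ae_fin (S : ℕ → Set ℕ) (hS : ∀ n, (S n).Finite) {v L : ℕ → ℝ} (hv : ∀ n, 1 ≤ v n) (hL0 : ∀ n, 0 ≤ L n)
    {c : ℕ → ℝ} (hc : ∀ᶠ n in atTop, ((S n).ncard : ℝ) * L n / v n ≤ c n) (hsum : Summable c) :
    ∀ᵐ α : ℝ, ∃ n₀ : ℕ, ∀ n : ℕ, n₀ ≤ n → ∀ N ∈ S n, L n < |(N : ℝ) - α * v n| := by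
  have hsum' : Summable (fun n => ((S n).ncard : ℝ) * L n / v n) := by
    refine Summable.of_norm_bounded_eventually_nat hsum ?_
    filter_upwards [hc] with n hn
    rw [Real.norm_eq_abs, abs_of_nonneg]
    · exact hn
    · have := hv n
      have := hL0 n
      positivity
  have h0 : volume {α : ℝ | ∃ᶠ n in atTop, α ∈ {α : ℝ | ∃ N ∈ S n, |(N : ℝ) - α * v n| ≤ L n}} = 0 := by
    apply measure_setOfPred_frequently_eq_zero
    have h1 : Summable (fun n => 2 * (((S n).ncard : ℝ) * L n / v n)) := hsum'.mul_left _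
    have h2 : ∑' n, volume {α : ℝ | ∃ N ∈ S n, |(N : ℝ) - α * v n| ≤ L n} ≤
        ∑' n, ENNReal.ofReal (2 * (((S n).ncard : ℝ) * L n / v n)) :=
      ENNReal.tsum_le_tsum (fun n => vol_le (S n) (hS n) (lt_of_lt_of_le one_pos (hv n)))
    exact ne_top_of_le_ne_top h1.tsum_ofReal_ne_top h2
  have h3 : ∀ᵐ α : ℝ, ¬ ∃ᶠ n in atTop, α ∈ {α : ℝ | ∃ N ∈ S n, |(N : ℝ) - α * v n| ≤ L n} := by
    rw [ae_iff]
    simpa only [not_not] using h0
  filter_upwards [h3] with α hα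
  rw [Filter.not_frequently] at hα
  obtain ⟨n₀, hn₀⟩ := hα.exists_forall_of_atTop
  refine ⟨n₀, fun n hn N hN => ?_⟩
  by_contra hcon
  exact hn₀ n hn ⟨N, hN, not_lt.1 hcon⟩

end

open Filter Topology MeasureTheory Set

theorem log_tendsto_of_summable {v : ℕ → ℝ} (hv : ∀ n, 1 < v n) {δ : ℝ} (hδ : 0 < δ)
    (hs : Summable fun n => Real.log (v n) ^ (-δ)) : Tendsto (fun n => Real.log (v n)) atTop atTop := by
  have h1 := hs.tendsto_atTop_zero
  have hp : ∀ n, 0 < Real.log (v n) := fun n => Real.log_pos (hv n)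
  have h2 : Tendsto (fun n => Real.log (v n) ^ δ) atTop atTop := by
    have h3 : Tendsto (fun n => (Real.log (v n) ^ (-δ))⁻¹) atTop atTop := by
      apply Tendsto.inv_tendsto_nhdsGT_zero
      rw [tendsto_nhdsWithin_iff]
      exact ⟨h1, Eventually.of_forall fun n => Real.rpow_pos_of_pos (hp n) _⟩
    refine h3.congr fun n => ?_
    rw [Real.rpow_neg (hp n).le, inv_inv]
  have h4 : Tendsto (fun n => (Real.log (v n) ^ δ) ^ (1 / δ)) atTop atTop :=
    (tendsto_rpow_atTop (by positivity)).comp h2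
  refine h4.congr fun n => ?_
  rw [← Real.rpow_mul (hp n).le, mul_one_div_cancel hδ.ne', Real.rpow_one]

/-- **Windows.** Let `Bad` have at most `C X (log X)^(ε-1)` elements up to `X` for every `ε > 0`. If `0 ≤ θ`,
`0 < δ`, `θ + δ < 1` and `∑ (log v_n)^(-δ)` converges, then for almost all `α > 0` and all large `n` the window
`|N - α v_n| ≤ (log v_n)^θ` has no element of `Bad`. -/
theorem ae_pow (Bad : ℕ → Prop)
    (hbad : ∀ ε : ℝ, 0 < ε → ∃ C : ℝ, 0 < C ∧ ∀ X : ℕ, 3 ≤ X →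
      ({N : ℕ | N ≤ X ∧ Bad N}.ncard : ℝ) ≤ C * X * Real.log X ^ (ε - 1))
    {v : ℕ → ℝ} (hv : ∀ n, 1 < v n) {θ δ : ℝ} (hθ : 0 ≤ θ) (hδ : 0 < δ) (hθδ : θ + δ < 1)
    (hs : Summable fun n => Real.log (v n) ^ (-δ)) :
    ∀ᵐ α : ℝ, 0 < α → ∃ n₀ : ℕ, ∀ n : ℕ, n₀ ≤ n → ∀ N : ℕ, |(N : ℝ) - α * v n| ≤ Real.log (v n) ^ θ →
      ¬ Bad N := by
  have hlog := log_tendsto_of_summable hv hδ hs
  have hp : ∀ n, 0 < Real.log (v n) := fun n => Real.log_pos (hv n)
  have hvt : Tendsto v atTop atTop := by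
    refine tendsto_atTop_mono (fun n => ?_) hlog
    have := Real.log_le_sub_one_of_pos (lt_trans one_pos (hv n))
    linarith
  obtain ⟨C, hC, hC1⟩ := hbad (1 - θ - δ) (by linarith)
  have he : (1 - θ - δ) - 1 = -(θ + δ) := by ring
  rw [he] at hC1
  have key : ∀ A : ℕ, ∀ᵐ α : ℝ, ∃ n₀ : ℕ, ∀ n : ℕ, n₀ ≤ n →
      ∀ N ∈ {N : ℕ | N ≤ ⌈((A : ℝ) + 1) * v n⌉₊ ∧ Bad N}, Real.log (v n) ^ θ < |(N : ℝ) - α * v n| := by
    intro A
    have hA : (0 : ℝ) ≤ A := Nat.cast_nonneg A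
    refine ae_fin _ (fun n => (Set.finite_Iic ⌈((A : ℝ) + 1) * v n⌉₊).subset
      fun N hN => hN.1) (fun n => (hv n).le) (fun n => Real.rpow_nonneg (hp n).le _)
      (c := fun n => (C * ((A : ℝ) + 2)) * Real.log (v n) ^ (-δ)) ?_ (hs.mul_left _)
    filter_upwards [hvt.eventually_ge_atTop 3] with n h2
    have hv0 : 0 < v n := by linarith
    have hv1 : 1 ≤ v n := by linarith
    set X : ℕ := ⌈((A : ℝ) + 1) * v n⌉₊ with hX
    have hXv : v n ≤ (X : ℝ) := by
      refine le_trans ?_ (Nat.le_ceil _)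
      nlinarith
    have hX2 : (X : ℝ) ≤ ((A : ℝ) + 2) * v n := by
      have := Nat.ceil_lt_add_one (show 0 ≤ ((A : ℝ) + 1) * v n by positivity)
      nlinarith
    have h4 := hC1 X (by exact_mod_cast h2.trans hXv)
    have h5 : Real.log (v n) ≤ Real.log X := Real.log_le_log hv0 hXv
    have h6 : Real.log X ^ (-(θ + δ)) ≤ Real.log (v n) ^ (-(θ + δ)) :=
      Real.rpow_le_rpow_of_nonpos (hp n) h5 (by linarith)
    have h7 : C * (X : ℝ) * Real.log X ^ (-(θ + δ)) ≤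
        C * (((A : ℝ) + 2) * v n) * Real.log (v n) ^ (-(θ + δ)) := by
      have h8 : 0 ≤ Real.log (X : ℝ) ^ (-(θ + δ)) := Real.rpow_nonneg (by linarith [hp n]) _
      calc C * (X : ℝ) * Real.log X ^ (-(θ + δ)) ≤ C * (((A : ℝ) + 2) * v n) * Real.log X ^ (-(θ + δ)) := by
            gcongr
        _ ≤ _ := mul_le_mul_of_nonneg_left h6 (by positivity)
    have h9 : Real.log (v n) ^ (-(θ + δ)) * Real.log (v n) ^ θ = Real.log (v n) ^ (-δ) := by
      rw [← Real.rpow_add (hp n)]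
      congr 1
      ring
    calc (({N : ℕ | N ≤ X ∧ Bad N}.ncard : ℕ) : ℝ) * Real.log (v n) ^ θ / v n
        ≤ (C * (((A : ℝ) + 2) * v n) * Real.log (v n) ^ (-(θ + δ))) * Real.log (v n) ^ θ / v n := by
          apply div_le_div_of_nonneg_right _ hv0.le
          exact mul_le_mul_of_nonneg_right (h4.trans h7) (Real.rpow_nonneg (hp n).le _)
      _ = C * ((A : ℝ) + 2) * (Real.log (v n) ^ (-(θ + δ)) * Real.log (v n) ^ θ) := by
          field_simp
      _ = C * ((A : ℝ) + 2) * Real.log (v n) ^ (-δ) := by rw [h9]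
  have hall := ae_all_iff.2 key
  filter_upwards [hall] with α hα hα0
  obtain ⟨A, hA⟩ := exists_nat_ge α
  obtain ⟨n₀, hn₀⟩ := hα A
  obtain ⟨n₁, hn₁⟩ := (hlog.eventually_ge_atTop 1).exists_forall_of_atTop
  refine ⟨max n₀ n₁, fun n hn N hw hbadN => ?_⟩
  refine absurd (hn₀ n ((le_max_left _ _).trans hn) N ⟨?_, hbadN⟩) (not_lt.2 hw)
  have h1 : Real.log (v n) ^ θ ≤ v n := by
    have e1 := hn₁ n ((le_max_right _ _).trans hn)
    calc Real.log (v n) ^ θ ≤ Real.log (v n) ^ (1 : ℝ) :=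
          Real.rpow_le_rpow_of_exponent_le e1 (by linarith)
      _ = Real.log (v n) := Real.rpow_one _
      _ ≤ v n := by
          have := Real.log_le_sub_one_of_pos (lt_trans one_pos (hv n))
          linarith
  have h2 := (abs_le.1 hw).2
  have h3 : α * v n ≤ A * v n := mul_le_mul_of_nonneg_right hA (by linarith [hv n])
  have h4 : (N : ℝ) ≤ (⌈((A : ℝ) + 1) * v n⌉₊ : ℝ) := by
    refine le_trans ?_ (Nat.le_ceil _)
    linarith
  exact_mod_cast h4

/-- **Short intervals.** If `Bad` has `o(X / log X)` elements up to `X`, then for every `c` all but `o(X)` of the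
intervals `[x, x + c log X]`, `x ≤ X`, have no element of `Bad`. -/
theorem short (Bad : ℕ → Prop)
    (hbad : Tendsto (fun X : ℕ => ({N : ℕ | N ≤ X ∧ Bad N}.ncard : ℝ) * Real.log X / X) atTop (𝓝 0)) (c : ℝ)
    (hc : 0 < c) :
    Tendsto (fun X : ℕ => ({x : ℕ | x ≤ X ∧ ∃ N : ℕ, x ≤ N ∧ (N : ℝ) ≤ x + c * Real.log X ∧ Bad N}.ncard : ℝ) / X)
      atTop (𝓝 0) := by
  set f : ℕ → ℝ := fun X => ({N : ℕ | N ≤ X ∧ Bad N}.ncard : ℝ) * Real.log X / X with hf
  have h2 : Tendsto (fun X : ℕ => 2 * X) atTop atTop := tendsto_id.const_mul_atTop' (by norm_num)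
  have h3 : Tendsto (fun X : ℕ => (2 * (c + 1)) * f (2 * X)) atTop (𝓝 0) := by
    have := (hbad.comp h2).const_mul (2 * (c + 1))
    rwa [mul_zero] at this
  have hlo : ∀ᶠ X : ℕ in atTop, c * Real.log X ≤ X := by
    have h4 : Tendsto (fun x : ℝ => Real.log x / x) atTop (𝓝 0) := by
      have := Real.tendsto_pow_log_div_mul_add_atTop 1 0 1 one_ne_zero
      simpa using this
    have h5 := (h4.comp tendsto_natCast_atTop_atTop).eventually (gt_mem_nhds (show (0 : ℝ) < 1 / c by positivity))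
    filter_upwards [h5, eventually_gt_atTop 0] with X hX hX0
    have hX0' : (0 : ℝ) < X := by exact_mod_cast hX0
    simp only [Function.comp] at hX
    rw [div_lt_div_iff₀ hX0' hc] at hX
    linarith
  refine squeeze_zero' (Eventually.of_forall fun X => by positivity) ?_ h3
  filter_upwards [hlo, eventually_ge_atTop 3] with X hX1 hX3
  have hX0 : (0 : ℝ) < X := by
    have : (3 : ℝ) ≤ X := by exact_mod_cast hX3
    linarith
  have hlogX : 1 ≤ Real.log X := by
    have h6 : Real.exp 1 ≤ X := by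
      have h7 := Real.exp_one_lt_d9
      have h8 : (3 : ℝ) ≤ X := by exact_mod_cast hX3
      linarith
    have := Real.log_le_log (Real.exp_pos 1) h6
    rwa [Real.log_exp] at this
  -- the intervals
  set S : Set ℕ := {N : ℕ | N ≤ 2 * X ∧ Bad N} with hS
  have hSf : S.Finite := (Set.finite_Iic (2 * X)).subset fun N hN => hN.1
  set k : ℕ := ⌊c * Real.log X⌋₊ with hk
  have hkle : (k : ℝ) ≤ c * Real.log X := Nat.floor_le (by positivity)
  have hsub : {x : ℕ | x ≤ X ∧ ∃ N : ℕ, x ≤ N ∧ (N : ℝ) ≤ x + c * Real.log X ∧ Bad N} ⊆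
      (fun p : ℕ × ℕ => p.1 - p.2) '' (S ×ˢ Set.Iic k) := by
    rintro x ⟨hx, N, h1, h2, h3⟩
    refine ⟨(N, N - x), ⟨⟨?_, h3⟩, ?_⟩, ?_⟩
    · have : (N : ℝ) ≤ 2 * X := by
        have : (x : ℝ) ≤ X := by exact_mod_cast hx
        linarith
      exact_mod_cast this
    · show N - x ≤ k
      rw [hk, Nat.le_floor_iff (by positivity), Nat.cast_sub h1]
      linarith
    · show N - (N - x) = x
      omega
  have hfin : (S ×ˢ Set.Iic k).Finite := hSf.prod (Set.finite_Iic k)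
  have hcard : (({x : ℕ | x ≤ X ∧ ∃ N : ℕ, x ≤ N ∧ (N : ℝ) ≤ x + c * Real.log X ∧ Bad N}.ncard : ℕ) : ℝ) ≤
      S.ncard * ((c + 1) * Real.log X) := by
    have h1 : {x : ℕ | x ≤ X ∧ ∃ N : ℕ, x ≤ N ∧ (N : ℝ) ≤ x + c * Real.log X ∧ Bad N}.ncard ≤
        S.ncard * (k + 1) := by
      refine (Set.ncard_le_ncard hsub (hfin.image _)).trans ((Set.ncard_image_le hfin).trans ?_)
      rw [Set.ncard_prod]
      have : (Set.Iic k).ncard = k + 1 := by
        rw [← Finset.coe_Iic, Set.ncard_coe_finset, Nat.card_Iic]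
      rw [this]
    have h2 : ((k : ℝ) + 1) ≤ (c + 1) * Real.log X := by nlinarith
    calc _ ≤ ((S.ncard * (k + 1) : ℕ) : ℝ) := by exact_mod_cast h1
      _ = (S.ncard : ℝ) * ((k : ℝ) + 1) := by push_cast; ring
      _ ≤ _ := mul_le_mul_of_nonneg_left h2 (by positivity)
  have hlog2 : Real.log X ≤ Real.log ((2 * X : ℕ) : ℝ) := by
    apply Real.log_le_log hX0
    push_cast
    linarith
  calc (({x : ℕ | x ≤ X ∧ ∃ N : ℕ, x ≤ N ∧ (N : ℝ) ≤ x + c * Real.log X ∧ Bad N}.ncard : ℕ) : ℝ) / X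
      ≤ (S.ncard * ((c + 1) * Real.log X)) / X := div_le_div_of_nonneg_right hcard hX0.le
    _ ≤ (S.ncard * ((c + 1) * Real.log ((2 * X : ℕ) : ℝ))) / X := by gcongr
    _ = (2 * (c + 1)) * f (2 * X) := by
        simp only [hf, hS]
        push_cast
        field_simp

end Pool.Agent.V11298.WP
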